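import Pool.Agent.H.MP_44bc16_an.B

set_option autoImplicit false

namespace Pool.Agent.Results.MP_44bc16_an.No

theorem result : ∃ (X : Type) (_ : NormedAddCommGroup X) (_ : NormedSpace ℝ X)
    (_ : CompleteSpace X), Function.Surjective (NormedSpace.inclusionInDoubleDual ℝ X) ∧
    ∀ N : Seminorm ℝ X, (∃ a b : ℝ, 0 < a ∧ a ≤ b ∧ ∀ x, a * ‖x‖ ≤ N x ∧ N x ≤ b * ‖x‖) →
      ∃ C : Set X, Convex ℝ C ∧ Bornology.IsBounded C ∧ C.Nontrivial ∧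
        (∃ d : ℝ, ∀ x ∈ C, IsLUB ((fun y => N (x - y)) '' C) d) ∧
        (⨅ x : C, ⨆ y : C, N (x - y)) = ⨆ x : C, ⨆ y : C, N (x - y) := by
  obtain ⟨X, _, _, _, h1, h2⟩ := H.MP_44bc16_an.main
  refine ⟨X, _, _, ‹_›, h1, fun N ⟨a, b, ha, _, h⟩ => ?_⟩
  obtain ⟨C, d, c1, ⟨x, hx⟩, c2, c3⟩ := h2 N a b ha h
  refine ⟨C, c1, (Metric.isBounded_closedBall (x := x) (r := d / a)).subset fun y hy => ?_, ?_,
    ⟨d, c3⟩, ?_⟩
  · rw [Metric.mem_closedBall, dist_comm, dist_eq_norm, le_div_iff₀' ha]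
    exact (h _).1.trans ((c3 x hx).1 ⟨y, hy, rfl⟩)
  · by_contra hn
    refine c2.not_ge ((c3 x hx).2 ?_)
    rintro _ ⟨y, hy, rfl⟩
    simp [Set.not_nontrivial_iff.1 hn hx hy]
  · have : Nonempty C := ⟨⟨x, hx⟩⟩
    have e : ∀ x : C, ⨆ y : C, N (x - y) = d := fun x =>
      IsLUB.ciSup_eq (by rw [← Set.image_eq_range (fun y => N (x.1 - y))]; exact c3 x x.2)
    simp [e]

end Pool.Agent.Results.MP_44bc16_an.No
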